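import Pool.Agent.N356.SP.Defs

set_option autoImplicit false

/-! # Project LS (helper356), LS7a: class functions, elementary facts -/

namespace Pool.Agent.N645.LS

open Finset Pool.Agent.H384R3.SPk Pool.Agent.N356.SP

theorem cosp_cont (h : ℤ →₀ ℝ) : Continuous (cosp h) := by
  unfold cosp Finsupp.sum
  fun_prop

theorem cosp_add (g f : ℤ →₀ ℝ) (x : ℝ) : cosp (g + f) x = cosp g x + cosp f x := by
  unfold cosp
  rw [Finsupp.sum_add_index']
  · intro n
    rw [zero_mul]
  · intro n a b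
    rw [add_mul]

theorem cosp_smul (t : ℝ) (f : ℤ →₀ ℝ) (x : ℝ) : cosp (t • f) x = t * cosp f x := by
  unfold cosp
  rw [Finsupp.sum_smul_index (fun n => zero_mul _), Finsupp.sum, Finsupp.sum, mul_sum]
  exact sum_congr rfl fun n _ => mul_assoc _ _ _

theorem cl_cont (m : ℕ) (f : ℤ →₀ ℝ) (c : ZMod m) : Continuous (cl m f c) := by
  unfold cl Finsupp.sum
  apply continuous_finsetSum
  intro n _
  apply Continuous.mul continuous_const
  apply Continuous.add
  · split_ifs
    · exact C.e_cont n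
    · exact continuous_const
  · split_ifs
    · exact C.e_cont (-n)
    · exact continuous_const

theorem cl_conj (m : ℕ) (f : ℤ →₀ ℝ) (c : ZMod m) (x : ℝ) :
    (starRingEnd ℂ) (cl m f c x) = cl m f (-c) x := by
  unfold cl Finsupp.sum
  rw [map_sum]
  refine sum_congr rfl fun n _ => ?_
  rw [map_mul, Complex.conj_ofReal, map_add, add_comm]
  congr 2
  · have h1 : (((-n : ℤ) : ZMod m) = c) ↔ (((n : ℤ) : ZMod m) = -c) := by
      push_cast
      exact neg_eq_iff_eq_neg
    by_cases h : ((-n : ℤ) : ZMod m) = c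
    · rw [if_pos h, if_pos (h1.1 h), C.e_conj, neg_neg]
    · rw [if_neg h, if_neg (fun h2 => h (h1.2 h2)), map_zero]
  · have h1 : (((n : ℤ) : ZMod m) = c) ↔ (((-n : ℤ) : ZMod m) = -c) := by
      push_cast
      exact neg_inj.symm
    by_cases h : ((n : ℤ) : ZMod m) = c
    · rw [if_pos h, if_pos (h1.1 h), C.e_conj]
    · rw [if_neg h, if_neg (fun h2 => h (h1.2 h2)), map_zero]

lemma e_add_neg (n : ℤ) (x : ℝ) : e n x + e (-n) x = ((2 * Real.cos (2 * Real.pi * n * x) : ℝ) : ℂ) := by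
  have h1 : e n x = Complex.exp (((2 * Real.pi * n * x : ℝ) : ℂ) * Complex.I) := by
    show Complex.exp (2 * Real.pi * Complex.I * n * x) = _
    congr 1
    push_cast
    ring
  have h2 : e (-n) x = Complex.exp (-((2 * Real.pi * n * x : ℝ) : ℂ) * Complex.I) := by
    show Complex.exp (2 * Real.pi * Complex.I * (-n : ℤ) * x) = _
    congr 1
    push_cast
    ring
  rw [h1, h2, Complex.ofReal_mul 2 (Real.cos _), Complex.ofReal_cos, Complex.ofReal_ofNat]
  exact (Complex.two_cos _).symm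

theorem cosp_eq (m : ℕ) (f : ℤ →₀ ℝ) (C : Finset (ZMod m)) (hneg : ∀ s ∈ C, -s ∈ C)
    (hf : ∀ n ∈ f.support, ((n : ℤ) : ZMod m) ∈ C) (x : ℝ) :
    (cosp f x : ℂ) = ∑ c ∈ C, cl m f c x := by
  unfold cosp cl Finsupp.sum
  rw [sum_comm, Complex.ofReal_sum]
  refine sum_congr rfl fun n hn => ?_
  rw [← mul_sum, Complex.ofReal_mul, sum_add_distrib, sum_ite_eq, sum_ite_eq, if_pos (hf n hn),
    if_pos (by push_cast; exact hneg _ (hf n hn)), e_add_neg]

end Pool.Agent.N645.LS
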